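import Pool.Agent.Hhelper24.JT.Primary

/-!
# A primary Banach space whose dual is not primary

For `𝕜 = ℝ` and `𝕜 = ℂ` (any `RCLike` field) there is a primary Banach space `X` over `𝕜` and a
decomposition of its dual into two closed subspaces neither of which is isomorphic to the dual.
-/

set_option autoImplicit false
set_option maxSynthPendingDepth 3

open Pool.Agent.Hhelper24.JT

namespace Pool.Agent.Results.MP_5801e7_an.DualNotPrimary

universe u

/-- `Y` and `Z` are closed and the whole space is their direct sum. -/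
def Decomposes {𝕜 : Type u} [RCLike 𝕜] {X : Type u} [NormedAddCommGroup X] [NormedSpace 𝕜 X]
    (Y Z : Submodule 𝕜 X) : Prop :=
  IsClosed (Y : Set X) ∧ IsClosed (Z : Set X) ∧ IsCompl Y Z

/-- The subspace `Y` of `X` is linearly isomorphic (by a bounded linear bijection with bounded
inverse) to `X`. -/
def IsoToWhole {𝕜 : Type u} [RCLike 𝕜] {X : Type u} [NormedAddCommGroup X] [NormedSpace 𝕜 X]
    (Y : Submodule 𝕜 X) : Prop :=
  Nonempty (Y ≃L[𝕜] X)

/-- A Banach space is primary if it is infinite-dimensional and in every decomposition into two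
closed subspaces one of the summands is linearly isomorphic to the whole space. -/
def Primary (𝕜 : Type u) [RCLike 𝕜] (X : Type u) [NormedAddCommGroup X] [NormedSpace 𝕜 X] :
    Prop :=
  ¬ FiniteDimensional 𝕜 X ∧
    ∀ Y Z : Submodule 𝕜 X, Decomposes Y Z → IsoToWhole Y ∨ IsoToWhole Z

/-- There is a decomposition into two closed subspaces neither of which is linearly isomorphic to
the whole space. -/
def BadlyDecomposable (𝕜 : Type u) [RCLike 𝕜] (X : Type u) [NormedAddCommGroup X]
    [NormedSpace 𝕜 X] : Prop :=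
  ∃ Y Z : Submodule 𝕜 X, Decomposes Y Z ∧ ¬ IsoToWhole Y ∧ ¬ IsoToWhole Z

lemma exists_decomposition {𝕜 : Type u} [RCLike 𝕜] {X : Type u} [NormedAddCommGroup X]
    [NormedSpace 𝕜 X] (h1 : ¬ FiniteDimensional 𝕜 X) (h2 : ¬ IsPrimary 𝕜 X) :
    BadlyDecomposable 𝕜 X := by
  by_contra hcon
  apply h2
  refine ⟨h1, fun Y Z hY hZ hYZ => ?_⟩
  by_contra h3
  rw [not_or] at h3
  exact hcon ⟨Y, Z, ⟨hY, hZ, hYZ⟩, h3.1, h3.2⟩

lemma primary_of {𝕜 : Type u} [RCLike 𝕜] {X : Type u} [NormedAddCommGroup X]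
    [NormedSpace 𝕜 X] (h : IsPrimary 𝕜 X) : Primary 𝕜 X :=
  ⟨h.1, fun Y Z hYZ => h.2 Y Z hYZ.1 hYZ.2.1 hYZ.2.2⟩

lemma not_finiteDimensional_of {𝕜 : Type u} [RCLike 𝕜] {E : Type u} [NormedAddCommGroup E]
    [NormedSpace 𝕜 E] (v : ℕ → E) (φ : ℕ → E →ₗ[𝕜] 𝕜) (h1 : ∀ i, φ i (v i) = 1)
    (h2 : ∀ i j, i ≠ j → φ i (v j) = 0) : ¬ FiniteDimensional 𝕜 E := by
  intro hfin
  have hli : LinearIndependent 𝕜 v := by
    rw [linearIndependent_iff']
    intro s g hg i hi
    have h3 : φ i (∑ k ∈ s, g k • v k) = 0 := by rw [hg, map_zero]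
    rw [map_sum, Finset.sum_eq_single_of_mem i hi] at h3
    · rwa [map_smul, h1, smul_eq_mul, mul_one] at h3
    · intro j _ hj
      rw [map_smul, h2 i j hj.symm, smul_zero]
  have : Finite ℕ := hli.finite
  exact not_finite ℕ

lemma not_finiteDimensional_dual {𝕜 : Type u} [RCLike 𝕜] :
    ¬ FiniteDimensional 𝕜 (StrongDual 𝕜 (JX 𝕜)) :=
  not_finiteDimensional_of (E := StrongDual 𝕜 (JX 𝕜)) (fun k => δ (Node.root k))
    (fun k =>
      { toFun := fun f => f (e (Node.root k))
        map_add' := fun _ _ => rfl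
        map_smul' := fun _ _ => rfl })
    (fun i => e_apply_self _) (fun i j hij => e_apply_ne fun h => hij (by simpa using h.symm))

lemma not_finiteDimensional_bidual {𝕜 : Type u} [RCLike 𝕜] :
    ¬ FiniteDimensional 𝕜 (StrongDual 𝕜 (StrongDual 𝕜 (JX 𝕜))) :=
  not_finiteDimensional_of (E := StrongDual 𝕜 (StrongDual 𝕜 (JX 𝕜)))
    (fun k => iota (e (Node.root k)))
    (fun k =>
      { toFun := fun F => F (δ (Node.root k))
        map_add' := fun _ _ => rfl
        map_smul' := fun _ _ => rfl })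
    (fun i => e_apply_self _) (fun i j hij => e_apply_ne fun h => hij (by simpa using h))

/-- **There is a primary Banach space whose dual is not primary**, over the reals and over the
complex numbers. -/
theorem result (𝕜 : Type u) [RCLike 𝕜] :
    ∃ (X : Type u) (_ : NormedAddCommGroup X) (_ : NormedSpace 𝕜 X),
      CompleteSpace X ∧ Primary 𝕜 X ∧ BadlyDecomposable 𝕜 (StrongDual 𝕜 X) := by
  by_cases h : IsPrimary 𝕜 (StrongDual 𝕜 (JX 𝕜))
  · exact ⟨StrongDual 𝕜 (JX 𝕜), inferInstance, inferInstance, inferInstance, primary_of h,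
      exists_decomposition not_finiteDimensional_bidual not_isPrimary_bidual⟩
  · exact ⟨JX 𝕜, inferInstance, inferInstance, inferInstance, primary_of isPrimary,
      exists_decomposition not_finiteDimensional_dual h⟩

end Pool.Agent.Results.MP_5801e7_an.DualNotPrimary
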